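import Mathlib

/-!
# The separation-size generating function of rooted trees is not a complete invariant
-/

set_option autoImplicit false

namespace Pool.Agent.Results.MP_1db03b_co.SeparationCollision

/-- A rooted tree is given by the list of its branches: `leaf` (no branch) is the one-vertex tree,
and `graft t s` is the rooted tree whose list of branches is `t` followed by the branches of `s`.
So `graft t₁ (graft t₂ (… (graft t_r leaf)))` is the tree `∧(t₁, …, t_r)`. -/
inductive RTree : Type
  | leaf : RTree
  | graft : RTree → RTree → RTree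

open RTree

/-- Isomorphism of rooted trees: the branches agree up to isomorphism and up to their order. -/
inductive Iso : RTree → RTree → Prop
  | leaf : Iso leaf leaf
  | graft (t t' s s' : RTree) : Iso t t' → Iso s s' → Iso (graft t s) (graft t' s')
  | swap (t t' s : RTree) : Iso (graft t (graft t' s)) (graft t' (graft t s))
  | trans (a b c : RTree) : Iso a b → Iso b c → Iso a c

section Polynomials

variable {R : Type} [CommRing R]

/-- `prodP x T` is the product of `1 - p_{T_i}(x)` over the branches `T_i` of `T`, where
`p_•(x) = x` and `p_T(x) = x (1 - ∏ (1 - p_{T_i}(x)))` otherwise. -/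
def prodP (x : R) : RTree → R
  | leaf => 1
  | graft leaf s => (1 - x) * prodP x s
  | graft (graft a b) s => (1 - x * (1 - prodP x (graft a b))) * prodP x s

/-- The value at `x` of the polynomial `p_T`. -/
def p (x : R) : RTree → R
  | leaf => x
  | graft a b => x * (1 - prodP x (graft a b))

/-- The value at `x` of the polynomial `p_T(x) / x`. -/
def q (x : R) : RTree → R
  | leaf => 1
  | graft a b => 1 - prodP x (graft a b)

/-- `prodA x y T` is the product of `A_{T_i}(x,y)` over the branches `T_i` of `T`, where
`A_•(x,y) = y` and `A_T(x,y) = y + x ∏ A_{T_i}(x,y)` otherwise. -/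
def prodA (x y : R) : RTree → R
  | leaf => 1
  | graft leaf s => y * prodA x y s
  | graft (graft a b) s => (y + x * prodA x y (graft a b)) * prodA x y s

/-- The value at `(x,y)` of the polynomial `A_T`. -/
def A (x y : R) : RTree → R
  | leaf => y
  | graft a b => y + x * prodA x y (graft a b)

/-- `sumM x y z T` is the sum over the branches `T_i` of `T` of
`M_{T_i}(x,y,z) ∏_{j ≠ i} A_{T_j}(x,y)`, where `M_•(x,y,z) = 1` and
`M_T(x,y,z) = p_T(z)/z + x ∑_i M_{T_i}(x,y,z) ∏_{j ≠ i} A_{T_j}(x,y)` otherwise. -/
def sumM (x y z : R) : RTree → R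
  | leaf => 0
  | graft leaf s => 1 * prodA x y s + y * sumM x y z s
  | graft (graft a b) s =>
      (q z (graft a b) + x * sumM x y z (graft a b)) * prodA x y s +
        A x y (graft a b) * sumM x y z s

/-- The value at `(x,y,z)` of the polynomial `M_T`. -/
def M (x y z : R) : RTree → R
  | leaf => 1
  | graft a b => q z (graft a b) + x * sumM x y z (graft a b)

/-! The defining recursions of the problem, for `T = ∧(T_1, …, T_r)`. -/

theorem p_eq (x : R) (T : RTree) : p x T = x * q x T := by
  cases T with
  | leaf => simp [p, q]
  | graft a b => simp [p, q]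

theorem prodP_graft (x : R) (t s : RTree) : prodP x (graft t s) = (1 - p x t) * prodP x s := by
  cases t with
  | leaf => simp [prodP, p]
  | graft a b => rw [prodP, p]

theorem prodA_graft (x y : R) (t s : RTree) : prodA x y (graft t s) = A x y t * prodA x y s := by
  cases t with
  | leaf => simp [prodA, A]
  | graft a b => rw [prodA, A]

theorem sumM_graft (x y z : R) (t s : RTree) :
    sumM x y z (graft t s) = M x y z t * prodA x y s + A x y t * sumM x y z s := by
  cases t with
  | leaf => simp [sumM, A, M]
  | graft a b => rw [sumM, M]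

end Polynomials

/-- The function `G_T(x) = ∫_0^1 M_T(xu, 1-u, u) du` of a real variable `x`. -/
noncomputable def G (T : RTree) (x : ℝ) : ℝ := ∫ u in (0 : ℝ)..1, M (x * u) (1 - u) u T

/-! ### The example -/

/-- `∧(T)`. -/
def P (T : RTree) : RTree := graft T leaf

/-- `∧(T, T')`. -/
def J (T T' : RTree) : RTree := graft T (graft T' leaf)

/-- `∧(∧(•,•), ∧(∧(•,∧(•))))`. -/
def U0 : RTree := J (J leaf leaf) (P (J leaf (P leaf)))

/-- `∧(∧(•), ∧(•,∧(∧(•,•))))`. -/
def U1 : RTree := J (P leaf) (J leaf (P (J leaf leaf)))

/-- `∧(U, ∧(V))`. -/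
def S (U V : RTree) : RTree := J U (P V)

/-- The first tree. -/
def T0 : RTree := J (S U0 U0) (S U1 U1)

/-- The second tree. -/
def T1 : RTree := J (S U0 U1) (S U1 U0)

/-- An invariant: the number of subtrees containing the root. -/
def cnt : RTree → ℕ
  | leaf => 1
  | graft t s => (cnt t + 1) * cnt s

theorem cnt_iso {T T' : RTree} (h : Iso T T') : cnt T = cnt T' := by
  induction h with
  | leaf => rfl
  | graft t t' s s' _ _ h1 h2 => simp only [cnt, h1, h2]
  | swap t t' s => simp only [cnt]; ring
  | trans a b c _ _ h1 h2 => exact h1.trans h2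

theorem not_iso : ¬ Iso T0 T1 := by
  intro h
  have := cnt_iso h
  revert this
  decide +kernel

section

variable {R : Type} [CommRing R]

theorem p_P (x : R) (T : RTree) : p x (P T) = x * p x T := by
  have h : p x (P T) = x * (1 - prodP x (graft T leaf)) := rfl
  rw [h, prodP_graft]
  simp only [prodP]
  ring

theorem p_J (x : R) (T T' : RTree) :
    p x (J T T') = x * (1 - (1 - p x T) * (1 - p x T')) := by
  have h : p x (J T T') = x * (1 - prodP x (graft T (graft T' leaf))) := rfl
  rw [h, prodP_graft, prodP_graft]
  simp only [prodP]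
  ring

theorem q_J (x : R) (T T' : RTree) :
    q x (J T T') = 1 - (1 - p x T) * (1 - p x T') := by
  have h : q x (J T T') = 1 - prodP x (graft T (graft T' leaf)) := rfl
  rw [h, prodP_graft, prodP_graft]
  simp only [prodP]
  ring

theorem q_P (x : R) (T : RTree) : q x (P T) = p x T := by
  have h : q x (P T) = 1 - prodP x (graft T leaf) := rfl
  rw [h, prodP_graft]
  simp only [prodP]
  ring

theorem A_P (x y : R) (T : RTree) : A x y (P T) = y + x * A x y T := by
  have h : A x y (P T) = y + x * prodA x y (graft T leaf) := rfl
  rw [h, prodA_graft]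
  simp only [prodA]
  ring

theorem A_J (x y : R) (T T' : RTree) :
    A x y (J T T') = y + x * (A x y T * A x y T') := by
  have h : A x y (J T T') = y + x * prodA x y (graft T (graft T' leaf)) := rfl
  rw [h, prodA_graft, prodA_graft]
  simp only [prodA]
  ring

theorem M_P (x y z : R) (T : RTree) : M x y z (P T) = p z T + x * M x y z T := by
  have h : M x y z (P T) = q z (P T) + x * sumM x y z (graft T leaf) := rfl
  rw [h, sumM_graft, q_P]
  simp only [sumM, prodA]
  ring

theorem M_J (x y z : R) (T T' : RTree) :
    M x y z (J T T') = (1 - (1 - p z T) * (1 - p z T')) +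
      x * (M x y z T * A x y T' + A x y T * M x y z T') := by
  have h : M x y z (J T T') = q z (J T T') + x * sumM x y z (graft T (graft T' leaf)) := rfl
  rw [h, sumM_graft, sumM_graft, prodA_graft, q_J]
  simp only [sumM, prodA]
  ring

theorem p_leaf (x : R) : p x leaf = x := rfl

theorem A_leaf (x y : R) : A x y leaf = y := rfl

theorem A_U (x y : R) : A x y U0 = A x y U1 := by
  unfold U0 U1
  simp only [A_J, A_P, A_leaf]
  ring

theorem p_U (x : R) : p x U0 = p x U1 := by
  unfold U0 U1
  simp only [p_J, p_P, p_leaf]
  ring

theorem M_T (x y z : R) : M x y z T0 = M x y z T1 := by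
  unfold T0 T1 S
  simp only [M_J, M_P, A_J, A_P, p_J, p_P, A_U, p_U]
  ring

end

/-- Two non-isomorphic rooted trees (with 41 vertices each) for which the polynomials `M`, hence
the functions `G`, are equal. -/
theorem result : ∃ T T' : RTree, ¬ Iso T T' ∧
    (∀ (R : Type) [CommRing R] (x y z : R), M x y z T = M x y z T') ∧ G T = G T' := by
  refine ⟨T0, T1, not_iso, fun R _ x y z => M_T x y z, ?_⟩
  funext x
  unfold G
  simp only [M_T]

end Pool.Agent.Results.MP_1db03b_co.SeparationCollision
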